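import Pool.Agent.H37.DEN.Targets

/-!
# Row INC: the increments become stable
-/

set_option autoImplicit false

open MvPolynomial Filter
open Pool.Agent.H18.HIT Pool.Agent.H8.TD Pool.Agent.H37.DEN

namespace Pool.Agent.H75.DEN

section inc

variable {k : Type} [Field k] (κ : IntermediateField k (K3 k)) (P : K3 k)

/-- the values of the variables of the homogeneous coordinate ring -/
noncomputable def cx (k : Type) [Field k] : Option (Fin 3) → K3 k
  | none => 1
  | some j => xx k j

/-- dehomogenization -/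
noncomputable def ev : MvPolynomial (Option (Fin 3)) κ →ₐ[κ] K3 k := aeval (cx k)

lemma ev_X (o : Option (Fin 3)) : ev κ (X o) = cx k o := by
  unfold ev
  rw [aeval_X]

lemma xx_eq (j : Fin 3) : xx k j = ι (X j) := rfl

lemma cx_mul (J a : ℕ) (o : Option (Fin 3)) (w : K3 k) (hw : w ∈ Wl κ P J a) :
    cx k o * w ∈ Wl κ P J (a + 1) := by
  unfold Wl at hw ⊢
  induction hw using Submodule.span_induction with
  | mem x hx =>
    obtain ⟨q, i, hq, hi, rfl⟩ := hx
    rcases o with _ | j
    · refine Submodule.subset_span ⟨q, i, by omega, hi, ?_⟩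
      simp only [cx, one_mul]
    · refine Submodule.subset_span ⟨X j * q, i, ?_, hi, ?_⟩
      · refine (totalDegree_mul _ _).trans ?_
        have h1 := (totalDegree_X (R := k) j).le
        omega
      · simp only [cx, xx_eq]
        unfold ι
        rw [map_mul, mul_assoc]
  | zero => rw [mul_zero]; exact Submodule.zero_mem _
  | add x y _ _ hx hy => rw [mul_add]; exact Submodule.add_mem _ hx hy
  | smul c x _ hx => rw [mul_smul_comm]; exact Submodule.smul_mem _ _ hx

lemma P_mul (J a : ℕ) (w : K3 k) (hw : w ∈ Wl κ P J a) : w * P ∈ Wl κ P (J + 1) a := by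
  unfold Wl at hw ⊢
  induction hw using Submodule.span_induction with
  | mem x hx =>
    obtain ⟨q, i, hq, hi, rfl⟩ := hx
    refine Submodule.subset_span ⟨q, i + 1, hq, by omega, ?_⟩
    rw [pow_succ, mul_assoc]
  | zero => rw [zero_mul]; exact Submodule.zero_mem _
  | add x y _ _ hx hy => rw [add_mul]; exact Submodule.add_mem _ hx hy
  | smul c x _ hx => rw [smul_mul_assoc]; exact Submodule.smul_mem _ _ hx

/-- the condition on the homogeneous components -/
def Gd (i : ℕ) (H : MvPolynomial (Option (Fin 3)) κ) : Prop :=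
  ∀ n, ev κ (homogeneousComponent n H) * P ^ i ∈ Wl κ P i n

lemma Gd_zero (i : ℕ) : Gd κ P i 0 := by
  intro n
  rw [map_zero, map_zero, zero_mul]
  exact Submodule.zero_mem _

lemma Gd_add (i : ℕ) (G H : MvPolynomial (Option (Fin 3)) κ) (hG : Gd κ P i G)
    (hH : Gd κ P i H) : Gd κ P i (G + H) := by
  intro n
  rw [map_add, map_add, add_mul]
  exact Submodule.add_mem _ (hG n) (hH n)

lemma Gd_X (i : ℕ) (o : Option (Fin 3)) (H : MvPolynomial (Option (Fin 3)) κ)
    (hH : Gd κ P i H) : Gd κ P i (X o * H) := by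
  intro n
  have h1 : X o * H = ∑ m ∈ Finset.range (H.totalDegree + 1),
      X o * homogeneousComponent m H := by
    rw [← Finset.mul_sum, sum_homogeneousComponent]
  rw [h1, map_sum, map_sum, Finset.sum_mul]
  refine Submodule.sum_mem _ fun m _ => ?_
  have h2 : X o * homogeneousComponent m H ∈ homogeneousSubmodule (Option (Fin 3)) κ (1 + m) :=
    (isHomogeneous_X κ o).mul (homogeneousComponent_isHomogeneous m H)
  rw [homogeneousComponent_of_mem h2]
  split_ifs with h3
  · subst h3
    rw [map_mul, ev_X, mul_assoc, add_comm 1 m]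
    exact cx_mul κ P i m o _ (hH m)
  · rw [map_zero, zero_mul]
    exact Submodule.zero_mem _

lemma Gd_C (i : ℕ) (c : κ) (H : MvPolynomial (Option (Fin 3)) κ)
    (hH : Gd κ P i H) : Gd κ P i (C c * H) := by
  intro n
  rw [homogeneousComponent_C_mul, ← smul_eq_C_mul, map_smul, smul_mul_assoc]
  exact Submodule.smul_mem _ _ (hH n)

lemma Gd_mul (i : ℕ) (c : MvPolynomial (Option (Fin 3)) κ) :
    ∀ H, Gd κ P i H → Gd κ P i (c * H) := by
  induction c using MvPolynomial.induction_on with
  | C a => exact fun H hH => Gd_C κ P i a H hH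
  | add p q hp hq =>
    intro H hH
    rw [add_mul]
    exact Gd_add κ P i _ _ (hp H hH) (hq H hH)
  | mul_X p o hp =>
    intro H hH
    rw [mul_assoc]
    exact hp _ (Gd_X κ P i o H hH)

/-- the ideal of the polynomials whose components satisfy the condition -/
def Id (i : ℕ) : Ideal (MvPolynomial (Option (Fin 3)) κ) where
  carrier := {H | Gd κ P i H}
  zero_mem' := Gd_zero κ P i
  add_mem' := fun {G H} hG hH => Gd_add κ P i G H hG hH
  smul_mem' := fun c H hH => Gd_mul κ P i c H hH

lemma mem_Id (i : ℕ) (H : MvPolynomial (Option (Fin 3)) κ) : H ∈ Id κ P i ↔ Gd κ P i H :=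
  Iff.rfl

lemma Id_mono : Monotone (Id κ P) := by
  refine monotone_nat_of_le_succ fun i H hH => ?_
  rw [mem_Id] at hH ⊢
  intro n
  rw [pow_succ, ← mul_assoc]
  exact P_mul κ P i n _ (hH n)

/-- homogenization of a polynomial -/
lemma exists_hom_poly (q : Po 3 k) (a : ℕ) (hq : q.totalDegree ≤ a) :
    ∃ H : MvPolynomial (Option (Fin 3)) κ, H.IsHomogeneous a ∧ ev κ H = ι q := by
  refine ⟨∑ m ∈ q.support, C (algebraMap k κ (coeff m q)) * (X none ^ (a - ∑ j, m j) *
    ∏ j : Fin 3, X (some j) ^ (m j)), ?_, ?_⟩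
  · refine IsHomogeneous.sum _ _ _ fun m hm => ?_
    have h1 : ∑ j, m j ≤ a := by
      refine le_trans ?_ ((le_totalDegree hm).trans hq)
      rw [Finsupp.sum_fintype _ _ fun _ => rfl]
    have h2 : (X none ^ (a - ∑ j, m j) : MvPolynomial (Option (Fin 3)) κ).IsHomogeneous
        (a - ∑ j, m j) := by
      have h3 := (isHomogeneous_X κ (none : Option (Fin 3))).pow (a - ∑ j, m j)
      rwa [one_mul] at h3
    have h4 : (∏ j : Fin 3, X (some j) ^ (m j) : MvPolynomial (Option (Fin 3)) κ).IsHomogeneous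
        (∑ j, m j) := by
      refine IsHomogeneous.prod _ _ _ fun j _ => ?_
      have h3 := (isHomogeneous_X κ (some j : Option (Fin 3))).pow (m j)
      rwa [one_mul] at h3
    have h5 := (isHomogeneous_C (Option (Fin 3)) (algebraMap k κ (coeff m q))).mul (h2.mul h4)
    have h6 : 0 + (a - ∑ j, m j + ∑ j, m j) = a := by omega
    rwa [h6] at h5
  · rw [map_sum]
    conv_rhs => rw [← support_sum_monomial_coeff q]
    unfold ι
    rw [map_sum]
    refine Finset.sum_congr rfl fun m _ => ?_
    rw [map_mul, map_mul, map_pow, map_prod, ev_X]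
    have h1 : cx k none = 1 := rfl
    rw [h1, one_pow, one_mul, monomial_eq, map_mul, Finsupp.prod_fintype _ _ fun _ => pow_zero _,
      map_prod]
    congr 1
    · unfold ev
      rw [aeval_C]
      rfl
    · refine Finset.prod_congr rfl fun j _ => ?_
      rw [map_pow, map_pow, ev_X]
      rfl

lemma exists_hom (a : ℕ) (b : K3 k) (hb : b ∈ Sp κ a) :
    ∃ H : MvPolynomial (Option (Fin 3)) κ, H.IsHomogeneous a ∧ ev κ H = b := by
  unfold Sp at hb
  induction hb using Submodule.span_induction with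
  | mem x hx =>
    obtain ⟨q, hq, rfl⟩ := hx
    exact exists_hom_poly κ q a hq
  | zero => exact ⟨0, isHomogeneous_zero _ _ _, map_zero _⟩
  | add x y _ _ hx hy =>
    obtain ⟨G, hG, rfl⟩ := hx
    obtain ⟨H, hH, rfl⟩ := hy
    exact ⟨G + H, hG.add hH, map_add _ _ _⟩
  | smul c x _ hx =>
    obtain ⟨G, hG, rfl⟩ := hx
    refine ⟨c • G, ?_, map_smul _ _ _⟩
    rw [smul_eq_C_mul]
    have h1 := (isHomogeneous_C (Option (Fin 3)) c).mul hG
    rwa [zero_add] at h1

lemma Gd_iff (i a : ℕ) (H : MvPolynomial (Option (Fin 3)) κ) (hH : H.IsHomogeneous a) :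
    Gd κ P i H ↔ ev κ H * P ^ i ∈ Wl κ P i a := by
  have h1 : H ∈ homogeneousSubmodule (Option (Fin 3)) κ a := hH
  constructor
  · intro h
    have h2 := h a
    rw [homogeneousComponent_of_mem h1, if_pos rfl] at h2
    exact h2
  · intro h n
    rw [homogeneousComponent_of_mem h1]
    split_ifs with h3
    · subst h3
      exact h
    · rw [map_zero, zero_mul]
      exact Submodule.zero_mem _

end inc

theorem pf_INC : Pool.Agent.H37.DEN.T_INC := by
  intro k _ κ P
  have hN : IsNoetherian (MvPolynomial (Option (Fin 3)) κ) (MvPolynomial (Option (Fin 3)) κ) :=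
    inferInstance
  obtain ⟨i₀, hi⟩ := monotone_stabilizes_iff_noetherian.2 hN ⟨Id κ P, Id_mono κ P⟩
  refine ⟨i₀, fun i hii a b hb hbi => ?_⟩
  obtain ⟨H, hH, rfl⟩ := exists_hom κ a b hb
  rw [← Gd_iff κ P _ _ _ hH] at hbi ⊢
  have h1 : Id κ P i₀ = Id κ P i := hi i hii
  rw [← mem_Id, h1, mem_Id]
  exact hbi

end Pool.Agent.H75.DEN
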